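import Mathlib

/-! CURVE row, part B. -/

set_option autoImplicit false

namespace Pool.Agent.Helper53.R8

open Polynomial

/-- homogenized cubic -/
noncomputable def hom3 (f : ℚ[X]) (N D : ℚ[X]) : ℚ[X] :=
  C (f.coeff 3) * N ^ 3 + C (f.coeff 2) * N ^ 2 * D + C (f.coeff 1) * N * D ^ 2 + C (f.coeff 0) * D ^ 3

lemma eval_cubic (f : ℚ[X]) (hf : f.natDegree = 3) (x : ℚ) :
    f.eval x = f.coeff 3 * x ^ 3 + f.coeff 2 * x ^ 2 + f.coeff 1 * x + f.coeff 0 := by
  rw [Polynomial.eval_eq_sum_range, hf]
  simp [Finset.sum_range_succ]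
  ring

lemma comp_cubic (f r : ℚ[X]) (hf : f.natDegree = 3) :
    f.comp r = C (f.coeff 3) * r ^ 3 + C (f.coeff 2) * r ^ 2 + C (f.coeff 1) * r + C (f.coeff 0) := by
  rw [Polynomial.comp_eq_sum_left, Polynomial.sum_over_range' f (by simp) 4 (by omega)]
  simp [Finset.sum_range_succ]
  ring

theorem curveB (f f' g g' : ℚ[X]) (hf : f.natDegree = 3) (hf' : f'.natDegree = 3)
    (hg : g.natDegree = 5) (hg' : g'.natDegree = 5) (hlc : g.leadingCoeff = g'.leadingCoeff)
    (S : Finset (ℚ × ℚ)) (hS : ∀ p ∈ S, f.eval p.1 = f'.eval p.2 ∧ g.eval p.1 = g'.eval p.2)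
    (hcard : 200 ≤ S.card) (D N : ℚ[X]) (hD : D ≠ 0) (hDd : D.natDegree ≤ 8) (hNd : N.natDegree ≤ 9)
    (hDN : ∀ p ∈ S, p.2 * D.eval p.1 = N.eval p.1) :
    ∃ β : ℚ, f'.comp (X + C β) = f ∧ g'.comp (X + C β) = g ∧ ∃ p ∈ S, p.2 = p.1 + β := by
  classical
  -- the first coordinates
  set T := S.image Prod.fst with hT
  have hTcard : 66 ≤ T.card := by
    have h1 : S.card ≤ 3 * T.card := by
      refine Finset.card_le_mul_card_image S 3 ?_
      intro t ht
      have hne : f' - C (f.eval t) ≠ 0 := by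
        intro h0
        have : (f' - C (f.eval t)).natDegree = 3 := by
          rw [Polynomial.natDegree_sub_C]; exact hf'
        rw [h0] at this; simp at this
      have h2 : ((S.filter (fun p => p.1 = t)).image Prod.snd) ⊆ (f' - C (f.eval t)).roots.toFinset := by
        intro y hy
        simp only [Finset.mem_image, Finset.mem_filter] at hy
        obtain ⟨p, ⟨hp, hpt⟩, rfl⟩ := hy
        rw [Multiset.mem_toFinset, Polynomial.mem_roots hne]
        simp only [IsRoot.def, eval_sub, eval_C]
        rw [← (hS p hp).1, hpt, sub_self]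
      have h3 : (S.filter (fun p => p.1 = t)).card = ((S.filter (fun p => p.1 = t)).image Prod.snd).card := by
        rw [Finset.card_image_of_injOn]
        intro p hp q hq hpq
        simp only [Finset.coe_filter, Set.mem_setOf_eq] at hp hq
        exact Prod.ext (hp.2.trans hq.2.symm) hpq
      calc (S.filter (fun p => p.1 = t)).card = _ := h3
        _ ≤ (f' - C (f.eval t)).roots.toFinset.card := Finset.card_le_card h2
        _ ≤ Multiset.card (f' - C (f.eval t)).roots := Multiset.toFinset_card_le _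
        _ ≤ (f' - C (f.eval t)).natDegree := Polynomial.card_roots' _
        _ = 3 := by rw [Polynomial.natDegree_sub_C]; exact hf'
    omega
  have ha' : f'.coeff 3 ≠ 0 := by
    have : f'.leadingCoeff ≠ 0 := by
      rw [Ne, Polynomial.leadingCoeff_eq_zero]; intro h0; rw [h0] at hf'; simp at hf'
    rwa [Polynomial.leadingCoeff, hf'] at this
  -- the identity
  have hid : hom3 f' N D = D ^ 3 * f := by
    rw [← sub_eq_zero]
    by_contra hne
    have hdeg : (hom3 f' N D - D ^ 3 * f).natDegree ≤ 27 := by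
      have e1 : (N ^ 3).natDegree ≤ 27 := (Polynomial.natDegree_pow_le_of_le 3 hNd)
      have e2 : (N ^ 2).natDegree ≤ 18 := (Polynomial.natDegree_pow_le_of_le 2 hNd)
      have e3 : (D ^ 2).natDegree ≤ 16 := (Polynomial.natDegree_pow_le_of_le 2 hDd)
      have e4 : (D ^ 3).natDegree ≤ 24 := (Polynomial.natDegree_pow_le_of_le 3 hDd)
      unfold hom3
      refine (Polynomial.natDegree_sub_le_of_le ?_ ?_).trans (max_self 27).le
      · refine Polynomial.natDegree_add_le_of_degree_le (Polynomial.natDegree_add_le_of_degree_le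
          (Polynomial.natDegree_add_le_of_degree_le ?_ ?_) ?_) ?_
        · exact (Polynomial.natDegree_C_mul_le _ _).trans e1
        · refine (Polynomial.natDegree_mul_le_of_le ((Polynomial.natDegree_C_mul_le _ _).trans e2) hDd).trans (by norm_num)
        · refine (Polynomial.natDegree_mul_le_of_le ((Polynomial.natDegree_C_mul_le _ _).trans hNd) e3).trans (by norm_num)
        · exact ((Polynomial.natDegree_C_mul_le _ _).trans e4).trans (by norm_num)
      · exact (Polynomial.natDegree_mul_le_of_le e4 hf.le).trans (by norm_num)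
    have hroots : T ⊆ (hom3 f' N D - D ^ 3 * f).roots.toFinset := by
      intro t ht
      rw [hT, Finset.mem_image] at ht
      obtain ⟨p, hp, rfl⟩ := ht
      rw [Multiset.mem_toFinset, Polynomial.mem_roots hne]
      simp only [IsRoot.def, hom3, eval_sub, eval_add, eval_mul, eval_pow, eval_C]
      rw [← hDN p hp, (hS p hp).1, eval_cubic f' hf']
      ring
    have : T.card ≤ 27 := by
      calc T.card ≤ _ := Finset.card_le_card hroots
        _ ≤ Multiset.card _ := Multiset.toFinset_card_le _
        _ ≤ _ := Polynomial.card_roots' _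
        _ ≤ 27 := hdeg
    omega
  -- D divides N
  have hdvd : D ∣ N := by
    obtain ⟨G, D1, N1, hG, hcop, hDe, hNe⟩ : ∃ G D1 N1 : ℚ[X], G ≠ 0 ∧ IsCoprime D1 N1 ∧ D = G * D1 ∧ N = G * N1 := by
      obtain ⟨D1, hD1⟩ := EuclideanDomain.gcd_dvd_left D N
      obtain ⟨N1, hN1⟩ := EuclideanDomain.gcd_dvd_right D N
      have hG : EuclideanDomain.gcd D N ≠ 0 := by
        intro h0; rw [h0] at hD1; simp at hD1; exact hD hD1
      refine ⟨EuclideanDomain.gcd D N, D1, N1, hG, ?_, hD1, hN1⟩
      have hb := EuclideanDomain.gcd_eq_gcd_ab D N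
      refine ⟨EuclideanDomain.gcdA D N, EuclideanDomain.gcdB D N, ?_⟩
      apply mul_left_cancel₀ hG
      calc EuclideanDomain.gcd D N * (EuclideanDomain.gcdA D N * D1 + EuclideanDomain.gcdB D N * N1)
          = (EuclideanDomain.gcd D N * D1) * EuclideanDomain.gcdA D N + (EuclideanDomain.gcd D N * N1) * EuclideanDomain.gcdB D N := by ring
        _ = D * EuclideanDomain.gcdA D N + N * EuclideanDomain.gcdB D N := by rw [← hD1, ← hN1]
        _ = EuclideanDomain.gcd D N := hb.symm
        _ = _ := (mul_one _).symm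
    have h1 : hom3 f' N1 D1 = D1 ^ 3 * f := by
      have hG3 : G ^ 3 ≠ 0 := pow_ne_zero 3 hG
      apply mul_left_cancel₀ hG3
      have := hid
      rw [hDe, hNe] at this
      unfold hom3 at this ⊢
      linear_combination this
    have h2 : D1 ∣ N1 ^ 3 := by
      have h3 : C (f'.coeff 3) * N1 ^ 3 = D1 * (D1 ^ 2 * f - C (f'.coeff 2) * N1 ^ 2 - C (f'.coeff 1) * N1 * D1 - C (f'.coeff 0) * D1 ^ 2) := by
        unfold hom3 at h1
        linear_combination h1
      have h4 : D1 ∣ C (f'.coeff 3) * N1 ^ 3 := ⟨_, h3⟩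
      have h5 : N1 ^ 3 = C (f'.coeff 3)⁻¹ * (C (f'.coeff 3) * N1 ^ 3) := by
        rw [← mul_assoc, ← C_mul, inv_mul_cancel₀ ha', C_1, one_mul]
      rw [h5]
      exact Dvd.dvd.mul_left h4 _
    have h3 : IsUnit D1 := (IsCoprime.pow_right hcop).isUnit_of_dvd' dvd_rfl h2
    rw [hDe, hNe]
    exact mul_dvd_mul_left G (h3.dvd)
  obtain ⟨r, hr⟩ := hdvd
  have hfr : f'.comp r = f := by
    have hD3 : D ^ 3 ≠ 0 := pow_ne_zero 3 hD
    apply mul_left_cancel₀ hD3
    rw [← hid, comp_cubic f' r hf', hr]
    unfold hom3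
    ring
  have hrdeg : r.natDegree = 1 := by
    have := congrArg Polynomial.natDegree hfr
    rw [Polynomial.natDegree_comp, hf, hf'] at this
    omega
  -- the points off the zeros of D
  have hTD : 58 ≤ (T.filter (fun t => D.eval t ≠ 0)).card := by
    have h1 : (T.filter (fun t => ¬ D.eval t ≠ 0)) ⊆ D.roots.toFinset := by
      intro t ht
      simp only [Finset.mem_filter, not_not] at ht
      rw [Multiset.mem_toFinset, Polynomial.mem_roots hD]
      exact ht.2
    have h2 : (T.filter (fun t => ¬ D.eval t ≠ 0)).card ≤ 8 := by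
      calc _ ≤ _ := Finset.card_le_card h1
        _ ≤ Multiset.card _ := Multiset.toFinset_card_le _
        _ ≤ _ := Polynomial.card_roots' _
        _ ≤ 8 := hDd
    have h3 := Finset.card_filter_add_card_filter_not (s := T) (fun t => D.eval t ≠ 0)
    omega
  have hpt : ∀ p ∈ S, D.eval p.1 ≠ 0 → p.2 = r.eval p.1 := by
    intro p hp hDp
    have := hDN p hp
    rw [hr, eval_mul] at this
    apply mul_left_cancel₀ hDp
    linarith
  have hgr : g'.comp r = g := by
    rw [← sub_eq_zero]
    by_contra hne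
    have hdeg : (g'.comp r - g).natDegree ≤ 5 := by
      refine (Polynomial.natDegree_sub_le_of_le ?_ hg.le).trans (max_self 5).le
      rw [Polynomial.natDegree_comp, hg', hrdeg]
    have hroots : (T.filter (fun t => D.eval t ≠ 0)) ⊆ (g'.comp r - g).roots.toFinset := by
      intro t ht
      rw [Finset.mem_filter, hT, Finset.mem_image] at ht
      obtain ⟨⟨p, hp, rfl⟩, hDp⟩ := ht
      rw [Multiset.mem_toFinset, Polynomial.mem_roots hne]
      simp only [IsRoot.def, eval_sub, eval_comp]
      rw [← hpt p hp hDp, (hS p hp).2, sub_self]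
    have : (T.filter (fun t => D.eval t ≠ 0)).card ≤ 5 := by
      calc _ ≤ _ := Finset.card_le_card hroots
        _ ≤ Multiset.card _ := Multiset.toFinset_card_le _
        _ ≤ _ := Polynomial.card_roots' _
        _ ≤ 5 := hdeg
    omega
  have hlead : r.leadingCoeff = 1 := by
    have h1 := congrArg Polynomial.leadingCoeff hgr
    rw [Polynomial.leadingCoeff_comp (by omega), hg', hlc] at h1
    have hb : g'.leadingCoeff ≠ 0 := by
      rw [Ne, Polynomial.leadingCoeff_eq_zero]; intro h0; rw [h0] at hg'; simp at hg'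
    have h2 : r.leadingCoeff ^ 5 = 1 := by
      apply mul_left_cancel₀ hb
      rw [h1, mul_one]
    exact (Odd.strictMono_pow (by decide : Odd 5)).injective (by simpa using h2)
  have hre : r = X + C (r.coeff 0) := by
    conv_lhs => rw [Polynomial.eq_X_add_C_of_natDegree_le_one hrdeg.le]
    have : r.coeff 1 = 1 := by rw [← hlead, Polynomial.leadingCoeff, hrdeg]
    rw [this, C_1, one_mul]
  refine ⟨r.coeff 0, by rw [← hre]; exact hfr, by rw [← hre]; exact hgr, ?_⟩
  have hne : (T.filter (fun t => D.eval t ≠ 0)).Nonempty := by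
    rw [← Finset.card_pos]; omega
  obtain ⟨t, ht⟩ := hne
  rw [Finset.mem_filter, hT, Finset.mem_image] at ht
  obtain ⟨⟨p, hp, rfl⟩, hDp⟩ := ht
  refine ⟨p, hp, ?_⟩
  rw [hpt p hp hDp]
  conv_lhs => rw [hre]
  simp

end Pool.Agent.Helper53.R8
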