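import Mathlib
import Pool.Agent.Helper17.R8.Sheet
import Pool.Agent.Helper53.R8.CurveB

/-! CURVE row. -/

set_option autoImplicit false

namespace Pool.Agent.Helper53.R8

open Polynomial

/-- a combination of polynomials of strictly increasing degrees is nonzero -/
lemma comb_ne_zero (n : ℕ) (v : Fin n → ℚ[X]) (hv : ∀ i, v i ≠ 0)
    (hd : StrictMono (fun i => (v i).natDegree)) (c : Fin n → ℚ) (hc : c ≠ 0) :
    ∑ i, C (c i) * v i ≠ 0 := by
  classical
  obtain ⟨i0, hi0⟩ : ∃ i, c i ≠ 0 := by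
    by_contra h; push Not at h; exact hc (funext h)
  -- the largest index with a nonzero coefficient
  obtain ⟨m, hm, hmax⟩ := Finset.exists_max_image (Finset.univ.filter (fun i => c i ≠ 0)) id ⟨i0, by simp [hi0]⟩
  simp only [Finset.mem_filter, Finset.mem_univ, true_and, id] at hm hmax
  intro h0
  have h1 := congrArg (fun p => Polynomial.coeff p (v m).natDegree) h0
  simp only [Polynomial.finset_sum_coeff, Polynomial.coeff_C_mul, Polynomial.coeff_zero] at h1
  rw [Finset.sum_eq_single m] at h1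
  · have : (v m).coeff (v m).natDegree ≠ 0 := by
      rw [Polynomial.coeff_natDegree]; exact Polynomial.leadingCoeff_ne_zero.mpr (hv m)
    exact (mul_ne_zero hm this) h1
  · intro j _ hj
    by_cases hcj : c j = 0
    · rw [hcj, zero_mul]
    · have hlt : j < m := lt_of_le_of_ne (hmax j hcj) hj
      rw [Polynomial.coeff_eq_zero_of_natDegree_lt (hd hlt), mul_zero]
  · intro h; exact absurd (Finset.mem_univ m) h

/-- the products `f^i g^j` of degrees 0, 3, 5, 6, 8, 9 -/
noncomputable def vv (f g : ℚ[X]) : Fin 6 → ℚ[X] := ![1, f, g, f ^ 2, f * g, f ^ 3]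
noncomputable def uu (f g : ℚ[X]) : Fin 5 → ℚ[X] := ![1, f, g, f ^ 2, f * g]

lemma deg_vv (f g : ℚ[X]) (hf : f.natDegree = 3) (hg : g.natDegree = 5) (i : Fin 6) :
    (vv f g i).natDegree = ![0, 3, 5, 6, 8, 9] i := by
  have hf0 : f ≠ 0 := by rintro rfl; simp at hf
  have hg0 : g ≠ 0 := by rintro rfl; simp at hg
  fin_cases i <;> simp [vv, hf, hg, Polynomial.natDegree_pow, Polynomial.natDegree_mul hf0 hg0]

lemma deg_uu (f g : ℚ[X]) (hf : f.natDegree = 3) (hg : g.natDegree = 5) (i : Fin 5) :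
    (uu f g i).natDegree = ![0, 3, 5, 6, 8] i := by
  have hf0 : f ≠ 0 := by rintro rfl; simp at hf
  have hg0 : g ≠ 0 := by rintro rfl; simp at hg
  fin_cases i <;> simp [uu, hf, hg, Polynomial.natDegree_pow, Polynomial.natDegree_mul hf0 hg0]

lemma vv_ne (f g : ℚ[X]) (hf : f.natDegree = 3) (hg : g.natDegree = 5) (i : Fin 6) : vv f g i ≠ 0 := by
  have hf0 : f ≠ 0 := by rintro rfl; simp at hf
  have hg0 : g ≠ 0 := by rintro rfl; simp at hg
  fin_cases i <;> simp [vv, hf0, hg0]

lemma uu_ne (f g : ℚ[X]) (hf : f.natDegree = 3) (hg : g.natDegree = 5) (i : Fin 5) : uu f g i ≠ 0 := by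
  have hf0 : f ≠ 0 := by rintro rfl; simp at hf
  have hg0 : g ≠ 0 := by rintro rfl; simp at hg
  fin_cases i <;> simp [uu, hf0, hg0]

/-- part A: `X D' = N'` -/
lemma curveA (f g : ℚ[X]) (hf : f.natDegree = 3) (hg : g.natDegree = 5) :
    ∃ (d : Fin 5 → ℚ) (n : Fin 6 → ℚ), d ≠ 0 ∧
      X * (∑ i, C (d i) * uu f g i) = ∑ i, C (n i) * vv f g i := by
  classical
  let W := Polynomial.degreeLT ℚ 10
  let L : ((Fin 5 → ℚ) × (Fin 6 → ℚ)) →ₗ[ℚ] ℚ[X] :=
    { toFun := fun p => X * (∑ i, C (p.1 i) * uu f g i) - ∑ i, C (p.2 i) * vv f g i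
      map_add' := by
        intro p q
        simp only [Prod.fst_add, Prod.snd_add, Pi.add_apply, C_add, add_mul, Finset.sum_add_distrib, mul_add]
        ring
      map_smul' := by
        intro c p
        simp only [Prod.smul_fst, Prod.smul_snd, Pi.smul_apply, smul_eq_mul, C_mul, RingHom.id_apply,
          Polynomial.smul_eq_C_mul, mul_sub, mul_assoc, ← Finset.mul_sum]
        ring }
  have hL : ∀ p, L p ∈ W := by
    intro p
    rw [Polynomial.mem_degreeLT]
    have h1 : (∑ i, C (p.1 i) * uu f g i).natDegree ≤ 8 := by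
      refine Polynomial.natDegree_sum_le_of_forall_le _ _ ?_
      intro i _
      refine (Polynomial.natDegree_C_mul_le _ _).trans ?_
      rw [deg_uu f g hf hg]; fin_cases i <;> simp
    have h2 : (∑ i, C (p.2 i) * vv f g i).natDegree ≤ 9 := by
      refine Polynomial.natDegree_sum_le_of_forall_le _ _ ?_
      intro i _
      refine (Polynomial.natDegree_C_mul_le _ _).trans ?_
      rw [deg_vv f g hf hg]; fin_cases i <;> simp
    have h3 : (L p).natDegree ≤ 9 := by
      show (X * (∑ i, C (p.1 i) * uu f g i) - ∑ i, C (p.2 i) * vv f g i).natDegree ≤ 9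
      refine (Polynomial.natDegree_sub_le_of_le ?_ h2).trans (max_self 9).le
      refine (Polynomial.natDegree_mul_le_of_le Polynomial.natDegree_X_le h1).trans (by norm_num)
    calc (L p).degree ≤ (L p).natDegree := Polynomial.degree_le_natDegree
      _ < 10 := by exact_mod_cast Nat.lt_succ_of_le h3
  let L' : ((Fin 5 → ℚ) × (Fin 6 → ℚ)) →ₗ[ℚ] W := L.codRestrict W hL
  have hfr : Module.finrank ℚ W < Module.finrank ℚ ((Fin 5 → ℚ) × (Fin 6 → ℚ)) := by
    rw [(Polynomial.degreeLTEquiv ℚ 10).finrank_eq]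
    simp
  haveI : Module.Finite ℚ W := Module.Finite.equiv (Polynomial.degreeLTEquiv ℚ 10).symm
  have hker := LinearMap.ker_ne_bot_of_finrank_lt (f := L') hfr
  obtain ⟨p, hp, hp0⟩ := Submodule.exists_mem_ne_zero_of_ne_bot hker
  have hLp : L p = 0 := by
    have := congrArg Subtype.val (LinearMap.mem_ker.mp hp)
    simpa [L'] using this
  have hLp' : X * (∑ i, C (p.1 i) * uu f g i) = ∑ i, C (p.2 i) * vv f g i := sub_eq_zero.mp hLp
  refine ⟨p.1, p.2, ?_, hLp'⟩
  intro hd
  have hn : p.2 ≠ 0 := by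
    intro hn; exact hp0 (Prod.ext hd hn)
  refine comb_ne_zero 6 (vv f g) (vv_ne f g hf hg) ?_ p.2 hn ?_
  · intro i j hij
    simp only [deg_vv f g hf hg]
    fin_cases i <;> fin_cases j <;> first | (exact absurd hij (by decide)) | simp
  · rw [← hLp', hd]; simp

theorem curve : Pool.Helper17.R8.ST_CURVE := by
  intro f f' g g' hf hf' hg hg' hlc S hS hcard
  obtain ⟨d, n, hd, hdn⟩ := curveA f' g' hf' hg'
  refine curveB f f' g g' hf hf' hg hg' hlc S hS hcard (∑ i, C (d i) * uu f g i) (∑ i, C (n i) * vv f g i) ?_ ?_ ?_ ?_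
  · refine comb_ne_zero 5 (uu f g) (uu_ne f g hf hg) ?_ d hd
    intro i j hij
    simp only [deg_uu f g hf hg]
    fin_cases i <;> fin_cases j <;> first | (exact absurd hij (by decide)) | simp
  · refine Polynomial.natDegree_sum_le_of_forall_le _ _ ?_
    intro i _
    refine (Polynomial.natDegree_C_mul_le _ _).trans ?_
    rw [deg_uu f g hf hg]; fin_cases i <;> simp
  · refine Polynomial.natDegree_sum_le_of_forall_le _ _ ?_
    intro i _
    refine (Polynomial.natDegree_C_mul_le _ _).trans ?_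
    rw [deg_vv f g hf hg]; fin_cases i <;> simp
  · intro p hp
    have h1 := congrArg (fun q => Polynomial.eval p.2 q) hdn
    obtain ⟨e1, e2⟩ := hS p hp
    simp only [eval_mul, eval_X, eval_finset_sum, eval_C] at h1 ⊢
    have hu : ∀ i, (uu f g i).eval p.1 = (uu f' g' i).eval p.2 := by
      intro i; fin_cases i <;> simp [uu, e1, e2]
    have hv : ∀ i, (vv f g i).eval p.1 = (vv f' g' i).eval p.2 := by
      intro i; fin_cases i <;> simp [vv, e1, e2]
    simp only [hu, hv]
    exact h1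

end Pool.Agent.Helper53.R8
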